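import Pool.Agent.H74.OLP.Targets2

/-!
# Short closed walks in the dual have sum zero
-/

set_option autoImplicit false
set_option linter.unusedSectionVars false
open scoped Classical
open Finset
open Pool.Agent.H74.OLP

namespace Pool.Agent.H54.OLP

/-- pairing with a cut -/
theorem dot_cut {V E F : Type} [Fintype V] [Fintype E] [Fintype F] (M : CMap V E F) (D : E → R)
    (W : Finset V) : CMap.dot D (fun e => (if M.s e ∈ W then (1 : R) else 0) +
      (if M.t e ∈ W then 1 else 0)) = ∑ e ∈ M.cut W, D e := by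
  unfold CMap.dot CMap.cut
  rw [sum_filter]
  refine sum_congr rfl fun e _ => ?_
  by_cases h1 : M.s e ∈ W <;> by_cases h2 : M.t e ∈ W <;> simp [h1, h2, R2]

theorem pf_CUT (h1 : T_MCW) (h2 : T_PAI) : T_CUT := by
  intro V E F _ _ _ M hOK hSF w hRep D hD
  refine ⟨lift_sy M D, fun x p hp => ?_⟩
  by_contra hne
  have hnull : ¬ Null M.T (M.lift D) Set.univ := fun h => hne (h x p fun y _ => Set.mem_univ y)
  obtain ⟨m, u, hm3, hwf, hum, hfs, -, hinj, -, hmin⟩ :=
    h1 F M.T (M.lift D) Set.univ (lift_sy M D) hnull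
  have hmw : m < w := lt_of_le_of_lt
    (hmin x p (fun y _ => Set.mem_univ y) ((Rne _).mp hne)) hp
  have hex : ∀ i, ∃ e, i < m → s(M.l e, M.r e) = s(u i, u (i + 1)) := by
    intro i
    by_cases hi : i < m
    · obtain ⟨-, e, he⟩ := hwf i hi
      exact ⟨e, fun _ => he⟩
    · obtain ⟨-, e, -⟩ := hwf 0 (by omega)
      exact ⟨e, fun h => absurd h hi⟩
  choose e he using hex
  have einj : ∀ i < m, ∀ j < m, e i = e j → i = j := by
    intro i hi j hj hij
    have hs : s(u i, u (i + 1)) = s(u j, u (j + 1)) := by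
      rw [← he i hi, ← he j hj, hij]
    rw [Sym2.eq_iff] at hs
    rcases hs with ⟨h, -⟩ | ⟨ha, hb⟩
    · exact hinj i hi j hj h
    · exfalso
      by_cases hj1 : j + 1 < m
      · have hij' := hinj i hi (j + 1) hj1 ha
        by_cases hi1 : i + 1 < m
        · have := hinj (i + 1) hi1 j hj hb
          omega
        · have hi2 : i + 1 = m := by omega
          rw [hi2, hum] at hb
          have := hinj 0 (by omega) j hj hb
          omega
      · have hj2 : j + 1 = m := by omega
        rw [hj2, hum] at ha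
        have h0 := hinj i hi 0 (by omega) ha
        rw [h0] at hb
        have := hinj (0 + 1) (by omega) j hj hb
        omega
  obtain ⟨W, hW⟩ := hRep m (by omega) hmw u e hinj einj hum (fun i hi => by
    have := he i hi
    rw [Sym2.eq_iff] at this
    unfold CMap.OnF
    rcases this with ⟨ha, hb⟩ | ⟨ha, hb⟩
    · exact ⟨Or.inl ha, Or.inr hb⟩
    · exact ⟨Or.inr hb, Or.inl ha⟩)
  have hsum : fs (M.lift D) u 0 m = ∑ e' ∈ M.cut W, D e' := by
    have hcut : M.cut W = (range m).image e := by
      ext e'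
      rw [hW, mem_image]
      constructor
      · rintro ⟨i, hi, h⟩
        exact ⟨i, mem_range.mpr hi, h⟩
      · rintro ⟨i, hi, h⟩
        exact ⟨i, mem_range.mp hi, h⟩
    rw [hcut, sum_image (fun i hi j hj h => einj i (mem_range.mp hi) j (mem_range.mp hj) h)]
    unfold fs
    rw [Nat.Ico_zero_eq_range]
    refine sum_congr rfl fun i hi => ?_
    exact lift_eq M hSF D (he i (mem_range.mp hi))
  rw [hsum, ← dot_cut M D W] at hfs
  have := (h2 V E F M).2.1 D (fun v => if v ∈ W then (1 : R) else 0) hD
  rw [this] at hfs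
  exact absurd hfs (by decide)

end Pool.Agent.H54.OLP
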