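import Pool.Agent.H74.OLP.Targets2

/-!
# A periodic function with sum zero is the difference of a periodic function, with applications
-/

set_option autoImplicit false
set_option linter.unusedSectionVars false
open scoped Classical
open Finset
open Pool.Agent.H74.OLP

namespace Pool.Agent.H54.OLP

/-- periodic functions depend on the residue only -/
theorem per_emod {d : ℕ} {x : ℤ → R} (hx : ∀ i, x (i + d) = x i) (hd : 1 ≤ d) (i : ℤ) :
    x ((i % (d : ℤ)).toNat) = x i := by
  have h1 : ∀ (k : ℕ) (j : ℤ), x (j + k * d) = x j := by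
    intro k
    induction k with
    | zero => intro j; simp
    | succ k ih =>
      intro j
      have := hx (j + k * d)
      rw [ih j] at this
      rw [← this]
      congr 1
      push_cast
      ring
  have h2 : ∀ (k j : ℤ), x (j + k * d) = x j := by
    intro k j
    obtain ⟨n, hn | hn⟩ := Int.eq_nat_or_neg k
    · rw [hn]; exact h1 n j
    · have := h1 n (j + k * d)
      rw [← this]
      congr 1
      rw [hn]
      ring
  have hd' : (0 : ℤ) < d := by exact_mod_cast hd
  have h3 : ((i % (d : ℤ)).toNat : ℤ) = i % d := Int.toNat_of_nonneg (Int.emod_nonneg _ hd'.ne')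
  rw [h3]
  have h4 := h2 (-(i / d)) i
  rw [← h4]
  congr 1
  have := Int.emod_add_mul_ediv i d
  linear_combination this

/-- periodic functions are constant on residue classes -/
theorem per_dvd {d : ℕ} {x : ℤ → R} (hx : ∀ i, x (i + d) = x i) (hd : 1 ≤ d) {i j : ℤ}
    (h : (d : ℤ) ∣ i - j) : x i = x j := by
  rw [← per_emod hx hd i, ← per_emod hx hd j, Int.emod_eq_emod_iff_emod_sub_eq_zero.mpr
    (Int.emod_eq_zero_of_dvd h)]

theorem pf_PCY : T_PCY := by
  intro d x hd hx h0
  have hd' : (0 : ℤ) < d := by exact_mod_cast hd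
  refine ⟨fun i => ∑ j ∈ range (i % (d : ℤ)).toNat, x j, fun i => ?_, fun i => ?_⟩
  · simp
  · have hk : ((i % (d : ℤ)).toNat : ℤ) = i % d :=
      Int.toNat_of_nonneg (Int.emod_nonneg _ hd'.ne')
    have hlt : (i % (d : ℤ)).toNat < d := by
      have := Int.emod_lt_of_pos i hd'
      omega
    have hxi := per_emod hx hd i
    set k := (i % (d : ℤ)).toNat with hkdef
    show ∑ j ∈ range ((i + 1) % (d : ℤ)).toNat, x j = ∑ j ∈ range k, x j + x i
    rw [← hxi, ← sum_range_succ (fun j : ℕ => x (j : ℤ))]
    by_cases hc : k + 1 < d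
    · have h1 : ((i + 1) % (d : ℤ)).toNat = k + 1 := by
        have : (i + 1) % (d : ℤ) = k + 1 := by
          have h2 : i + 1 = i % d + 1 + d * (i / d) := by
            have := Int.emod_add_mul_ediv i d
            linear_combination -this
          rw [h2, ← hk, Int.add_mul_emod_self_left]
          exact Int.emod_eq_of_lt (by positivity) (by exact_mod_cast hc)
        rw [this]
        omega
      rw [h1]
    · have hkd : k + 1 = d := by omega
      have h1 : ((i + 1) % (d : ℤ)).toNat = 0 := by
        have : (i + 1) % (d : ℤ) = 0 := by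
          have h2 : i + 1 = i % d + 1 + d * (i / d) := by
            have := Int.emod_add_mul_ediv i d
            linear_combination -this
          rw [h2, ← hk]
          have h3 : ((k : ℤ) + 1) = d := by exact_mod_cast hkd
          rw [h3]
          simp
        rw [this]
        rfl
      rw [h1, hkd, h0]
      simp

theorem pf_KAP (h1 : T_PCY) : T_KAP := by
  intro V E F _ _ _ M hOK hSF n c hc hn hcs
  have hn1 : 1 ≤ n := le_trans (by norm_num) hc.n4
  have cper : ∀ i : ℤ, c (i + n) = c i := fun i => (hc.eqv _ _).mpr (by simp)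
  obtain ⟨τ, hτ1, hτ2⟩ := h1 n (fun i => 1 + M.lift M.D1 (c i) (c (i + 1))) hn1 (fun i => by
      show 1 + M.lift M.D1 (c (i + n)) (c (i + n + 1)) = 1 + M.lift M.D1 (c i) (c (i + 1))
      rw [cper i, show i + (n : ℤ) + 1 = (i + 1) + n by ring, cper (i + 1)]) (by
      rw [sum_add_distrib]
      have h2 : ∑ i ∈ range n, M.lift M.D1 (c i) (c (i + 1)) = 1 := hcs
      rw [h2]
      simp only [sum_const, card_range, nsmul_eq_mul, mul_one]
      rw [(Rodd n).mpr hn]
      exact R2 1)
  have hwd : ∀ a b, c a = c b → τ a = τ b := fun a b hab =>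
    per_dvd hτ1 hn1 ((hc.eqv a b).mp hab)
  refine ⟨fun f => if h : ∃ i, f = c i then τ h.choose else 0, fun e hl hr => ?_⟩
  obtain ⟨a, ha⟩ := hl
  obtain ⟨b, hb⟩ := hr
  have hκ : ∀ f i, c i = f → (if h : ∃ i, f = c i then τ h.choose else 0) = τ i := by
    intro f i hi
    have hex : ∃ i, f = c i := ⟨i, hi.symm⟩
    rw [dif_pos hex]
    exact hwd _ _ (hex.choose_spec.symm.trans hi.symm)
  show (if h : ∃ i, M.l e = c i then τ h.choose else 0) +
    (if h : ∃ i, M.r e = c i then τ h.choose else 0) = 1 + M.D1 e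
  rw [hκ _ a ha, hκ _ b hb]
  have hadj : M.T.Adj (c a) (c b) := by
    rw [ha, hb]; exact T_adj_of_edge M hOK e
  rcases (hc.adj a b).mp hadj with h | h
  · have e1 : c a = c (b + 1) := (hc.eqv _ _).mpr (by
      rw [show a - (b + 1) = a - b - 1 by ring]; exact h)
    have e2 : τ a = τ (b + 1) := hwd _ _ e1
    rw [e2, hτ2 b, ← e1, ha, hb, lift_sy, lift_eq' M hSF]
    linear_combination R2 (τ b)
  · have e1 : c b = c (a + 1) := (hc.eqv _ _).mpr (by
      rw [show b - (a + 1) = b - a - 1 by ring]; exact h)
    have e2 : τ b = τ (a + 1) := hwd _ _ e1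
    rw [e2, hτ2 a, ← e1, ha, hb, lift_eq' M hSF]
    linear_combination R2 (τ a)

end Pool.Agent.H54.OLP
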